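import Pool.Agent.Helper555.Tau.Covers
import Pool.Agent.Helper555.Tau.Merged
import Pool.Agent.Helper555.Tau.ForceDefs
import Pool.Agent.Helper555.Tau.ForceCH
import Pool.Agent.Helper555.Tau.P_final

/-!
# The two tau-selection classes consistently differ

`U_fin(O, T)` and `S_fin(Ω, O^{τ-gp})` consistently differ: the continuum hypothesis can be
forced, and the continuum hypothesis implies that there is a set of reals which satisfies
`S_fin(Ω, O^{τ-gp})` but not `U_fin(O, T)`.
-/

set_option autoImplicit false

namespace Pool.Agent.Results.MP_34961d_gt.Separation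

open Tau555 Tau555.ForceCH

/-- (1) There is a forcing notion all of whose conditions force that `ω₁` is preserved and that
the continuum hypothesis holds. (2) The continuum hypothesis implies that there is a set of reals
which satisfies `S_fin(Ω, O^{τ-gp})` and does not satisfy `U_fin(O, T)`. -/
theorem result :
    (∃ (P : Type) (_ : Preorder P), Nonempty P ∧
      ∀ p : P, p ∈ OmegaOnePreserved P ∧ p ∈ CHHolds P) ∧
    (Cardinal.aleph 1 = Cardinal.continuum → ∃ X : Set ℝ, SfinTauGp X ∧ ¬ UfinTau X) := by
  refine ⟨?_, fun h => ?_⟩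
  · obtain ⟨P, hP, hne, h⟩ := exists_forcing
    exact ⟨P, hP, hne, fun p => ⟨(h p).1, (h p).2.2⟩⟩
  · obtain ⟨X, hX, hX'⟩ := Tau555.final h
    exact ⟨X, SfinTauGp_of_merged hX, hX'⟩

end Pool.Agent.Results.MP_34961d_gt.Separation
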